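import Mathlib
import Pool.Agent.Q8.QH.Pen

/-!
# Finite descent on the quartics in one-parameter families: bounded numbers

Let `A = D(t) u₀(t)`, `B = D(t) u₁(t)`, where `u₀`, `u₁`, `u₂ = u₀ - u₁` are polynomials with
integer coefficients, `u_k` a constant times a product of `n_k` irreducible polynomials, and
`D = c ∏ g_i`. For a squarefree divisor `b₁` of `A B` consider the curve of genus one
`C : N² = b₁ M⁴ - (A + B) M² e² + (A B / b₁) e⁴`. Its étale double coverings (with the Jacobian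
`y² = x (x - A) (x - B)`) are `D_d : b₁ M² - A e² = d x²`, `b₁ M² - B e² = b₁ d y²` (`N = d x y`), `d`
a squarefree integer, and every 2-covering of `C` factors through one of the `D_d`. We prove that
for almost all `t` the number of the curves `C` with points everywhere locally is
`(log M) ^ (κ log 2 + o(1))`, and that the number of those that have a `D_d` with points everywhere
locally is bounded in the mean, with all its moments outside of one set of density zero.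
-/

set_option autoImplicit false

namespace Pool.Agent.Results.MP_d37f77_nt.PencilsBounded

open Finset Polynomial

/-- the curve `C : N² = b₁ M⁴ - (A + B) M² e² + (A B / b₁) e⁴` has a point over `K`, with
`(M, e) ≠ (0, 0)` -/
def Solvable (K : Type) [Field K] (A B b₁ : ℤ) : Prop := ∃ N M e : K, (M ≠ 0 ∨ e ≠ 0) ∧
  N ^ 2 = (b₁ : K) * M ^ 4 + ((-(A + B) : ℤ) : K) * M ^ 2 * e ^ 2 +
    ((A * B / b₁ : ℤ) : K) * e ^ 4

/-- the squarefree `b₁ ∣ A B` for which `C` has points everywhere locally -/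
def ELS (A B : ℤ) : Set ℤ := {b₁ | Squarefree b₁ ∧ b₁ ∣ A * B ∧ Solvable ℝ A B b₁ ∧
  ∀ (p : ℕ) [Fact p.Prime], Solvable ℚ_[p] A B b₁}

/-- the double covering `D_d` of `C` has a point over `K` -/
def Covering (K : Type) [Field K] (A B b₁ d : ℤ) : Prop := ∃ M e x y : K, (M ≠ 0 ∨ e ≠ 0) ∧
  (b₁ : K) * M ^ 2 - (A : K) * e ^ 2 = (d : K) * x ^ 2 ∧
  (b₁ : K) * M ^ 2 - (B : K) * e ^ 2 = (b₁ : K) * d * y ^ 2

/-- the `b₁` in `ELS A B` for which some covering `D_d` has points everywhere locally -/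
def ELSCovered (A B : ℤ) : Set ℤ := {b₁ | b₁ ∈ ELS A B ∧ ∃ d : ℤ, Squarefree d ∧
  Covering ℝ A B b₁ d ∧ ∀ (p : ℕ) [Fact p.Prime], Covering ℚ_[p] A B b₁ d}

/-- `u_k = a_k ∏ f_{k,i}` -/
noncomputable def u {n : Fin 3 → ℕ} (a : Fin 3 → ℤ) (f : ∀ k : Fin 3, Fin (n k) → ℤ[X])
    (k : Fin 3) : ℤ[X] := C (a k) * ∏ i, f k i

/-- `D = c ∏ g_i` -/
noncomputable def D {m : ℕ} (c : ℤ) (g : Fin m → ℤ[X]) : ℤ[X] := C c * ∏ i, g i

/-- `v` is a square modulo `f` in `ℚ[t]` -/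
def SqMod (f v : ℤ[X]) : Prop := ∃ q : ℚ[X], f.map (Int.castRingHom ℚ) ∣
  (q ^ 2 - v.map (Int.castRingHom ℚ))

/-- `- D u₁`, `- D u₀`, `D u₀` -/
noncomputable def v {n : Fin 3 → ℕ} {m : ℕ} (a : Fin 3 → ℤ) (f : ∀ k : Fin 3, Fin (n k) → ℤ[X])
    (c : ℤ) (g : Fin m → ℤ[X]) : Fin 3 → ℤ[X] :=
  ![-(D c g * u a f 1), -(D c g * u a f 0), D c g * u a f 0]

open Classical in
/-- the constant `κ = n₀ + n₁ - (n₂ + s) / 2 + r / 2`, where `s` is the number of the factors of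
`u₂` modulo which `D u₀` is a square, and `r` the number of the `g_i` modulo which `u₀ u₁` is not
a square -/
noncomputable def κ {n : Fin 3 → ℕ} {m : ℕ} (a : Fin 3 → ℤ) (f : ∀ k : Fin 3, Fin (n k) → ℤ[X])
    (c : ℤ) (g : Fin m → ℤ[X]) : ℝ :=
  (n 0 : ℝ) + n 1 -
    ((n 2 : ℝ) + (univ.filter (fun i => SqMod (f 2 i) (D c g * u a f 0))).card) / 2 +
    ((univ.filter (fun i => ¬ SqMod (g i) (u a f 0 * u a f 1))).card : ℝ) / 2

open Classical in
/-- the balance condition: `2 n_k + s_k ≤ n₀ + n₁ + n₂` for all `k`, where `s_k` is the number of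
the factors `f_{k,i}` modulo which `v_k` is a square -/
def Balanced {n : Fin 3 → ℕ} {m : ℕ} (a : Fin 3 → ℤ) (f : ∀ k : Fin 3, Fin (n k) → ℤ[X])
    (c : ℤ) (g : Fin m → ℤ[X]) : Prop :=
  ∀ k, 2 * n k + (univ.filter (fun i => SqMod (f k i) (v a f c g k))).card ≤ n 0 + n 1 + n 2

/-- the data of the family satisfy the conditions: `a_k`, `c` are nonzero, `u₀ - u₁ = u₂`, and the
`n₀ + n₁ + n₂ + m` polynomials `f_{k,i}`, `g_i` with integer coefficients are irreducible of positive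
degree and pairwise non-associated -/
structure Pencil {n : Fin 3 → ℕ} {m : ℕ} (a : Fin 3 → ℤ) (f : ∀ k : Fin 3, Fin (n k) → ℤ[X])
    (c : ℤ) (g : Fin m → ℤ[X]) : Prop where
  ha : ∀ k, a k ≠ 0
  hc : c ≠ 0
  hf : ∀ k i, Irreducible (f k i) ∧ 0 < (f k i).natDegree
  hg : ∀ i, Irreducible (g i) ∧ 0 < (g i).natDegree
  hff : ∀ k i l j, (⟨k, i⟩ : Σ k : Fin 3, Fin (n k)) ≠ ⟨l, j⟩ → ¬ Associated (f k i) (f l j)
  hgg : ∀ i j, i ≠ j → ¬ Associated (g i) (g j)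
  hfg : ∀ k i j, ¬ Associated (f k i) (g j)
  hu : u a f 0 - u a f 1 = u a f 2

/-- `2 n_k < n₀ + n₁ + n₂` for all `k` -/
def Strict (n : Fin 3 → ℕ) : Prop := ∀ k, 2 * n k < n 0 + n 1 + n 2

open Classical in
/-- a set of density zero, uniformly in all the intervals `(N, N + M]` with `|N| ≤ M ^ L` -/
def DensityZero (Z : Set ℤ) : Prop := ∀ (L : ℕ) (ε : ℝ), 0 < ε → ∃ M₀ : ℕ, ∀ (N : ℤ) (M : ℕ),
  M₀ ≤ M → |N| ≤ (M : ℤ) ^ L →
    (((Ioc N (N + (M : ℤ))).filter (fun t => t ∈ Z)).card : ℝ) ≤ ε * M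

lemma irr_of {n : Fin 3 → ℕ} {m : ℕ} {a : Fin 3 → ℤ} {f : ∀ k : Fin 3, Fin (n k) → ℤ[X]}
    {c : ℤ} {g : Fin m → ℤ[X]} (h : Pencil a f c g) :
    Pool.Agent.TH841.PT.Irr (Pool.Agent.TH841.TR.allf g f) := by
  refine ⟨?_, ?_, ?_⟩
  · rintro (x | i)
    · exact (h.hf x.1 x.2).1
    · exact (h.hg i).1
  · rintro (x | i)
    · exact (h.hf x.1 x.2).2
    · exact (h.hg i).2
  · rintro (x | i) (y | j) hxy
    · exact h.hff x.1 x.2 y.1 y.2 (fun h => hxy (congrArg Sum.inl h))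
    · exact h.hfg x.1 x.2 j
    · exact fun h' => h.hfg y.1 y.2 i h'.symm
    · exact h.hgg i j (fun h => hxy (congrArg Sum.inr h))

open Classical in
/-- **Theorem.** Let `A = (D u₀)(t)`, `B = (D u₁)(t)` for a family as in `Pencil`.
(1) If `2 n_k < n₀ + n₁ + n₂` for all `k`, there is a set `Z` of density zero such that `A`, `B`,
`A - B` are nonzero for `t ∉ Z` and for all `k` and `L` there is `C` such that for `M ≥ 1` and
`|N| ≤ M ^ L` the sum of `(#ELSCovered A B) ^ k` over the integers `N < t ≤ N + M` not in `Z` is at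
most `C M`.
(2) Under the balance condition, for all `L` there is `C` such that the sum of `#ELSCovered A B`
over the integers `N < t ≤ N + M` with `A`, `B`, `A - B` nonzero is at most `C M` if `M ≥ 1` and
`|N| ≤ M ^ L`.
(3) In both cases for all `δ, ε > 0` and `L` there are `R` and `M₀` such that for `M ≥ M₀` and
`|N| ≤ M ^ L` all the integers `N < t ≤ N + M` with at most `ε M` exceptions satisfy: `A`, `B`, `A - B`
are nonzero, `#ELSCovered A B ≤ R` and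
`(log M) ^ (κ log 2 - δ) ≤ #ELS A B ≤ (log M) ^ (κ log 2 + δ)`. -/
theorem result (n : Fin 3 → ℕ) (m : ℕ) (a : Fin 3 → ℤ) (f : ∀ k : Fin 3, Fin (n k) → ℤ[X])
    (c : ℤ) (g : Fin m → ℤ[X]) (h : Pencil a f c g) :
    (Strict n → ∃ Z : Set ℤ, DensityZero Z ∧
      (∀ t, t ∉ Z → ∀ k, (D c g * u a f k).eval t ≠ 0) ∧
      ∀ k L : ℕ, ∃ C : ℝ, ∀ (N : ℤ) (M : ℕ), 1 ≤ M → |N| ≤ (M : ℤ) ^ L →
        ∑ t ∈ (Ioc N (N + (M : ℤ))).filter (fun t => t ∉ Z),
          ((ELSCovered ((D c g * u a f 0).eval t) ((D c g * u a f 1).eval t)).ncard : ℝ) ^ k ≤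
        C * M) ∧
    (Balanced a f c g → ∀ L : ℕ, ∃ C : ℝ, ∀ (N : ℤ) (M : ℕ), 1 ≤ M → |N| ≤ (M : ℤ) ^ L →
      ∑ t ∈ (Ioc N (N + (M : ℤ))).filter (fun t => ∀ k, (D c g * u a f k).eval t ≠ 0),
        ((ELSCovered ((D c g * u a f 0).eval t) ((D c g * u a f 1).eval t)).ncard : ℝ) ≤
      C * M) ∧
    (Strict n ∨ Balanced a f c g → ∀ (δ ε : ℝ) (L : ℕ), 0 < δ → 0 < ε →
      ∃ R M₀ : ℕ, ∀ (N : ℤ) (M : ℕ), M₀ ≤ M → |N| ≤ (M : ℤ) ^ L →
        (((Ioc N (N + (M : ℤ))).filter (fun t => ¬ ∀ A B : ℤ,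
          A = (D c g * u a f 0).eval t → B = (D c g * u a f 1).eval t →
          A ≠ 0 ∧ B ≠ 0 ∧ A ≠ B ∧ (ELSCovered A B).ncard ≤ R ∧
          (Real.log M) ^ (κ a f c g * Real.log 2 - δ) ≤ ((ELS A B).ncard : ℝ) ∧
          ((ELS A B).ncard : ℝ) ≤ (Real.log M) ^ (κ a f c g * Real.log 2 + δ))).card : ℝ) ≤
          ε * M) := by
  have hirr := irr_of h
  have hbal : Balanced a f c g → Pool.Agent.TH841.TR.Bal (Pool.Agent.TH841.LS.DG c g) a f :=
    fun hb => Pool.Agent.TH841.TR.bal_of (v := v a f c g) rfl rfl rfl fun k => hb k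
  refine ⟨fun hs => Pool.Agent.Q8.QH.Pen.strict a f c g h.ha h.hc hirr h.hu hs,
    fun hb L => Pool.Agent.Q8.QH.Pen.bal a f c g h.ha h.hc hirr h.hu (hbal hb) L,
    fun hsb δ ε L hδ hε => ?_⟩
  exact Pool.Agent.Q8.QH.Pen.ae a f c g h.ha h.hc hirr h.hu (hsb.imp_right hbal) δ ε L hδ hε

end Pool.Agent.Results.MP_d37f77_nt.PencilsBounded
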