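import Mathlib
import Pool.Agent.Q284.FDQ.Mdl
import Pool.Agent.Y667.RP.Disc
import Pool.Agent.W672.FK.Lowf
import Pool.Agent.W307.RT.Tors

/-!
# Finite descent decides the 2-isogeny coverings of a positive proportion of the curves with full
rational 2-torsion

All elliptic curves `E` over `ℚ` with full rational 2-torsion, ordered by the naive height or by the
absolute value of the minimal discriminant. For an equation `y² = x (x - A) (x - B)` of `E` and a
squarefree `b₁ ∣ A B` the curve of genus one `C_{b₁} : N² = b₁ M⁴ - (A + B) M² e² + (A B / b₁) e⁴`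
covers `E` (the degree is two, the Jacobian of `C_{b₁}` is 2-isogenous to `E`). For squarefree `d` the
curve `D_d : b₁ M² - A e² = d x²`, `b₁ M² - B e² = b₁ d y²` is an étale double covering of `C_{b₁}`
(`N = d x y`), and every 2-covering of `C_{b₁}` factors through one of the `D_d`. For every `T` the following holds for a positive
proportion of the curves `E`: for ALL equations `y² = x (x - A) (x - B)` of `E`, a curve `C_{b₁}` with
points everywhere locally has a rational point or its 2-Selmer set is empty (no `D_d` has points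
everywhere locally); and for some equation at least `2 ^ T` of the curves `C_{b₁}` with points
everywhere locally have no rational point.
-/

set_option autoImplicit false

namespace Pool.Agent.Results.MP_d37f77_nt.PositiveProportionQuartics

open Finset Filter Topology

/-- the curve `y² = x³ + A x + B` over `ℚ` -/
def E (A B : ℤ) : WeierstrassCurve ℚ := ⟨0, 0, 0, (A : ℚ), (B : ℚ)⟩

/-- the absolute value of the minimal discriminant of an elliptic curve `W` over `ℚ`: the smallest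
absolute value of the discriminant of a Weierstrass equation `V` with integer coefficients which is
isomorphic to `W` over `ℚ` -/
noncomputable def minDisc (W : WeierstrassCurve ℚ) : ℕ :=
  sInf {n : ℕ | ∃ (V : WeierstrassCurve ℤ) (C : WeierstrassCurve.VariableChange ℚ),
    C • W = V.map (Int.castRingHom ℚ) ∧ n = V.Δ.natAbs}

/-- the naive height of `y² = x³ + A x + B` is at most `Z` -/
def HeightLe (c : ℤ × ℤ) (Z : ℕ) : Prop := 4 * |c.1| ^ 3 ≤ Z ∧ 27 * c.2 ^ 2 ≤ Z

/-- the minimal discriminant of `y² = x³ + A x + B` is at most `Z` in absolute value -/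
def DiscLe (c : ℤ × ℤ) (Z : ℕ) : Prop := minDisc (E c.1 c.2) ≤ Z

/-- The pairs `(A, B)` of integers such that `4 A³ + 27 B² ≠ 0`, there is no prime `p` with
`p⁴ ∣ A` and `p⁶ ∣ B`, `Z/2 x Z/2` embeds in the group of the rational points of
`y² = x³ + A x + B`, and the size (`HeightLe` or `DiscLe`) is at most `Z`. Every elliptic curve over
`ℚ` with full rational 2-torsion is isomorphic to `E A B` for exactly one pair with the first three
properties. -/
def Fam (I : ℤ × ℤ → ℕ → Prop) (Z : ℕ) : Set (ℤ × ℤ) :=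
  {c : ℤ × ℤ | 4 * c.1 ^ 3 + 27 * c.2 ^ 2 ≠ 0 ∧
    (∀ p : ℕ, p.Prime → ¬ ((p : ℤ) ^ 4 ∣ c.1 ∧ (p : ℤ) ^ 6 ∣ c.2)) ∧
    (∃ f : ZMod 2 × ZMod 2 →+ (E c.1 c.2).toAffine.Point, Function.Injective f) ∧ I c Z}

/-- the proportion of the curves of `S` among the curves of size at most `Z` -/
noncomputable def proportion (I : ℤ × ℤ → ℕ → Prop) (S : Set (ℤ × ℤ)) (Z : ℕ) : ℝ :=
  ((Fam I Z ∩ S).ncard : ℝ) / (Fam I Z).ncard

lemma FamH_eq (H : ℕ) : Fam HeightLe H = (Pool.Agent.W307.RT.Cv 2 H : Set (ℤ × ℤ)) := by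
  classical
  ext c
  have h : Pool.Agent.W307.RT.HasT 2 (Pool.Agent.W307.RT.Sh c.1 c.2) ↔
    ∃ f : ZMod 2 × ZMod 2 →+ (E c.1 c.2).toAffine.Point, Function.Injective f :=
    Pool.Agent.W307.RT.tors_iff
  unfold Fam HeightLe Pool.Agent.W307.RT.Cv
  rw [Set.mem_ofPred_eq, mem_coe, mem_filter, h, mem_product, mem_Icc, mem_Icc]
  constructor
  · rintro ⟨h1, h2, h3, h4, h5⟩
    refine ⟨⟨?_, ?_⟩, h1, h4, h5, h2, h3⟩
    · rw [← abs_le]
      have h0 := abs_nonneg c.1
      rcases eq_or_lt_of_le h0 with h6 | h6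
      · rw [← h6]; positivity
      · have : 1 ≤ |c.1| := h6
        nlinarith [mul_nonneg h0 h0, mul_self_nonneg (|c.1| - 1)]
    · rw [← abs_le]
      have h0 := abs_nonneg c.2
      rw [← sq_abs] at h5
      rcases eq_or_lt_of_le h0 with h6 | h6
      · rw [← h6]; positivity
      · have : 1 ≤ |c.2| := h6
        nlinarith
  · rintro ⟨-, h1, h4, h5, h2, h3⟩
    exact ⟨h1, h2, h3, h4, h5⟩

lemma FamD_eq (D : ℕ) : Fam DiscLe D = (Pool.Agent.TH344.DS.Dv D : Set (ℤ × ℤ)) := by
  classical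
  have h0 : Fam DiscLe D = Pool.Agent.W307.RS.DvS 2 D := by
    ext c
    have h : Pool.Agent.W307.RT.HasT 2 (Pool.Agent.W307.RT.Sh c.1 c.2) ↔
        ∃ f : ZMod 2 × ZMod 2 →+ (E c.1 c.2).toAffine.Point, Function.Injective f :=
      Pool.Agent.W307.RT.tors_iff
    unfold Fam Pool.Agent.W307.RS.DvS
    rw [Set.mem_ofPred_eq, Set.mem_ofPred_eq, h]
    exact Iff.rfl
  rw [h0]
  unfold Pool.Agent.TH344.DS.Dv
  rw [dif_pos (Pool.Agent.TH344.DS.excd.1 D), Set.Finite.coe_toFinset]

/-- The number of these curves tends to infinity (ordering by height). -/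
lemma tendstoH : Tendsto (fun Z : ℕ => (Fam HeightLe Z).ncard) atTop atTop := by
  simp only [FamH_eq, Set.ncard_coe_finset]
  exact Pool.Agent.W307.RT.tendsto_of_low Pool.Agent.W672.FK.lowf

/-- The number of these curves tends to infinity (ordering by the minimal discriminant). -/
lemma tendstoD : Tendsto (fun Z : ℕ => (Fam DiscLe Z).ncard) atTop atTop := by
  have h1 := Pool.Agent.W307.RT.tendsto_of_low Pool.Agent.W672.FK.lowf
  have h2 : Tendsto (fun D : ℕ => (Pool.Agent.W307.RT.Cv 2 (D / 32)).card) atTop atTop :=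
    h1.comp (Nat.tendsto_div_const_atTop (by norm_num))
  obtain ⟨hD1, hD2, hD3⟩ := Pool.Agent.TH344.DS.excd
  refine tendsto_atTop_mono (fun D => ?_) h2
  have h3 : (Pool.Agent.TH344.DS.Dv D : Set (ℤ × ℤ)) = Pool.Agent.W307.RS.DvS 2 D := by
    unfold Pool.Agent.TH344.DS.Dv
    rw [dif_pos (hD1 D), Set.Finite.coe_toFinset]
  rw [FamD_eq, h3, ← Set.ncard_coe_finset]
  exact Set.ncard_le_ncard (Pool.Agent.W307.RS.Cv_sub Pool.Agent.W554.RS.mdl 2 (D / 32) D
    (Nat.mul_div_le D 32)) (hD1 D)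

/-- the curve `y² = x (x - A) (x - B)` over `ℚ` -/
def Leg (A B : ℤ) : WeierstrassCurve ℚ := ⟨0, ((-(A + B) : ℤ) : ℚ), 0, ((A * B : ℤ) : ℚ), 0⟩

/-- `y² = x (x - A) (x - B)` is an equation of the curve `y² = x³ + c.1 x + c.2` -/
def IsModel (c : ℤ × ℤ) (A B : ℤ) : Prop :=
  ∃ C : WeierstrassCurve.VariableChange ℚ, C • E c.1 c.2 = Leg A B

/-- the curve `C_{b₁} : N² = b₁ M⁴ - (A + B) M² e² + (A B / b₁) e⁴` has a point over `K`, with
`(M, e) ≠ (0, 0)` -/
def Solvable (K : Type) [Field K] (A B b₁ : ℤ) : Prop := ∃ N M e : K, (M ≠ 0 ∨ e ≠ 0) ∧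
  N ^ 2 = (b₁ : K) * M ^ 4 + ((-(A + B) : ℤ) : K) * M ^ 2 * e ^ 2 +
    ((A * B / b₁ : ℤ) : K) * e ^ 4

/-- the squarefree `b₁ ∣ A B` for which `C_{b₁}` has points everywhere locally -/
def ELS (A B : ℤ) : Set ℤ := {b₁ | Squarefree b₁ ∧ b₁ ∣ A * B ∧ Solvable ℝ A B b₁ ∧
  ∀ (p : ℕ) [Fact p.Prime], Solvable ℚ_[p] A B b₁}

/-- the double covering `D_d : b₁ M² - A e² = d x²`, `b₁ M² - B e² = b₁ d y²` of `C_{b₁}` has a point
over `K` -/
def Covering (K : Type) [Field K] (A B b₁ d : ℤ) : Prop := ∃ M e x y : K, (M ≠ 0 ∨ e ≠ 0) ∧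
  (b₁ : K) * M ^ 2 - (A : K) * e ^ 2 = (d : K) * x ^ 2 ∧
  (b₁ : K) * M ^ 2 - (B : K) * e ^ 2 = (b₁ : K) * d * y ^ 2

/-- No double covering `D_d` of `C_{b₁}` has points everywhere locally. In this case the 2-Selmer set
of `C_{b₁}` is empty and `C_{b₁}` has no rational point. -/
def DescentEmpty (A B b₁ : ℤ) : Prop := ∀ d : ℤ, Squarefree d →
  ¬ (Covering ℝ A B b₁ d ∧ ∀ (p : ℕ) [Fact p.Prime], Covering ℚ_[p] A B b₁ d)

/-- the dual quartic `N² = d M⁴ + 2 (A + B) M² e² + ((A - B)² / d) e⁴` has a point over `K`, with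
`(M, e) ≠ (0, 0)` -/
def DualSolvable (K : Type) [Field K] (A B d : ℤ) : Prop := ∃ N M e : K, (M ≠ 0 ∨ e ≠ 0) ∧
  N ^ 2 = (d : K) * M ^ 4 + ((2 * (A + B) : ℤ) : K) * M ^ 2 * e ^ 2 +
    (((A - B) ^ 2 / d : ℤ) : K) * e ^ 4

/-- the squarefree `d ∣ (A - B)²` for which the dual quartic has points everywhere locally -/
def DualELS (A B : ℤ) : Set ℤ := {d | Squarefree d ∧ d ∣ (A - B) ^ 2 ∧ DualSolvable ℝ A B d ∧
  ∀ (p : ℕ) [Fact p.Prime], DualSolvable ℚ_[p] A B d}

/-- The curves such that, for all their equations `y² = x (x - A) (x - B)` with integers `A`, `B`: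
every `D_d` (for all squarefree `b₁`, `d`) with points everywhere locally has a rational point; every
`C_{b₁}` with points everywhere locally has a rational point or no double covering `D_d` with points
everywhere locally; and every dual quartic with points everywhere locally has a rational point. -/
def Decided : Set (ℤ × ℤ) :=
  {c | ∀ A B : ℤ, IsModel c A B →
    (∀ b₁ d : ℤ, Squarefree b₁ → Squarefree d → Covering ℝ A B b₁ d →
      (∀ (p : ℕ) [Fact p.Prime], Covering ℚ_[p] A B b₁ d) → Covering ℚ A B b₁ d) ∧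
    (∀ b₁ ∈ ELS A B, Solvable ℚ A B b₁ ∨ DescentEmpty A B b₁) ∧
    ∀ d ∈ DualELS A B, DualSolvable ℚ A B d}

/-- the curves with an equation `y² = x (x - A) (x - B)`, `A`, `B` integers, for which at least `n` of
the curves `C_{b₁}` have points everywhere locally and no rational point -/
def Violations (n : ℕ) : Set (ℤ × ℤ) :=
  {c | ∃ A B : ℤ, IsModel c A B ∧ n ≤ {b₁ : ℤ | b₁ ∈ ELS A B ∧ ¬ Solvable ℚ A B b₁}.ncard}

lemma mem_of {T : ℕ} {c : ℤ × ℤ} (h : Pool.Agent.Q284.FDQ.PQ (T + 1) c) :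
    c ∈ Decided ∩ Violations (2 ^ T) := by
  refine ⟨fun A B hM => ?_, ?_⟩
  · obtain ⟨hA, hB, hAB, h4, hc⟩ := h.2.1 A B hM
    have hc4 : (Pool.Agent.W307.SE.Sel A B).ncard ≤ 4 := by
      rw [hc, h.1.2.1]
      norm_num
    have hcov : ∀ b₁ d : ℤ, Squarefree b₁ → Squarefree d → Covering ℝ A B b₁ d →
        (∀ (p : ℕ) [Fact p.Prime], Covering ℚ_[p] A B b₁ d) → Covering ℚ A B b₁ d :=
      fun b₁ d hb hd hR hp => Pool.Agent.Q284.FDQ.cov_rat hA hB hAB h4 hc4 hb hd hR hp
    refine ⟨hcov, fun b₁ hb => ?_, fun d hd => ?_⟩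
    · by_cases hS : Solvable ℚ A B b₁
      · exact Or.inl hS
      · refine Or.inr fun d hd hcon => hS ?_
        exact Pool.Agent.Q284.FDQ.quar_of hb.1.ne_zero hb.2.1 (hcov b₁ d hb.1 hd hcon.1 hcon.2)
    · exact Pool.Agent.Q284.FDQ.dual_rat hA hB hAB h4 hc4 hd.1 hd.2.1 hd.2.2.1 hd.2.2.2
  · obtain ⟨A, B, h1, h2⟩ := Pool.Agent.Q284.FDQ.many_not h
    exact ⟨A, B, h1, h2⟩

/-- **Theorem.** Order the elliptic curves over `ℚ` with full rational 2-torsion by the naive height
or by the absolute value of the minimal discriminant. For both orderings there are finitely many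
curves of size at most `Z`, their number tends to infinity with `Z`, and for every `T` a positive
proportion of the curves (the lower density is positive) belongs to `Decided` and has at least
`2 ^ T` curves `C_{b₁}` with points everywhere locally and without rational points (and so, by
`Decided`, with empty 2-Selmer set) for one of its equations `y² = x (x - A) (x - B)`. -/
theorem result : ∀ I : ℤ × ℤ → ℕ → Prop, I = HeightLe ∨ I = DiscLe →
    (∀ Z : ℕ, (Fam I Z).Finite) ∧ Tendsto (fun Z : ℕ => (Fam I Z).ncard) atTop atTop ∧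
    ∀ T : ℕ, ∃ δ : ℝ, 0 < δ ∧
      ∀ᶠ Z : ℕ in atTop, δ ≤ proportion I (Decided ∩ Violations (2 ^ T)) Z := by
  classical
  have h0 : ∀ T : ℕ, ∃ c : ℝ, 0 < c ∧ ∃ H0 : ℕ, ∀ H : ℕ, H0 ≤ H →
      c * ((Pool.Agent.W307.RT.Cv 2 H).card : ℝ) ≤
        (((Pool.Agent.W307.RT.Cv 2 H).filter (Pool.Agent.Q284.FDQ.PQ (T + 1))).card : ℝ) := by
    intro T
    obtain ⟨c, hc, H0, h⟩ := Pool.Agent.Q284.FDQ.curvesPQ (T + 1)
    refine ⟨c, hc, H0, fun H hH => (h H hH).trans
      (Nat.cast_le.2 (card_le_card fun k hk => ?_))⟩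
    rw [mem_filter] at hk ⊢
    exact hk
  have hfin : ∀ I : ℤ × ℤ → ℕ → Prop, I = HeightLe ∨ I = DiscLe → ∀ Z : ℕ, (Fam I Z).Finite := by
    rintro I (rfl | rfl) Z
    · rw [FamH_eq]
      exact finite_toSet _
    · rw [FamD_eq]
      exact finite_toSet _
  intro I hI
  refine ⟨hfin I hI, ?_, fun T => ?_⟩
  · rcases hI with rfl | rfl
    · exact tendstoH
    · exact tendstoD
  · rcases hI with rfl | rfl
    · obtain ⟨c, hc, H0, h⟩ := h0 T
      refine ⟨c, hc, ?_⟩
      filter_upwards [eventually_ge_atTop H0, tendstoH.eventually_ge_atTop 1] with H hH hH1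
      unfold proportion
      rw [le_div_iff₀ (by exact_mod_cast hH1)]
      have e1 : (Fam HeightLe H).ncard = (Pool.Agent.W307.RT.Cv 2 H).card := by
        rw [FamH_eq, Set.ncard_coe_finset]
      rw [e1]
      refine (h H hH).trans (Nat.cast_le.2 ?_)
      rw [← Set.ncard_coe_finset]
      refine Set.ncard_le_ncard (fun k hk => ?_) (Set.Finite.inter_of_left
        (hfin _ (Or.inl rfl) _) _)
      rw [mem_coe, mem_filter] at hk
      refine ⟨?_, mem_of hk.2⟩
      rw [FamH_eq, mem_coe]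
      exact hk.1
    · obtain ⟨c, hc, H0, h⟩ := Pool.Agent.Y667.RP.disc_of_height
        (Pool.Agent.Q284.FDQ.PQ (T + 1)) (h0 T)
      refine ⟨c, hc, ?_⟩
      filter_upwards [eventually_ge_atTop H0, tendstoD.eventually_ge_atTop 1] with H hH hH1
      unfold proportion
      rw [le_div_iff₀ (by exact_mod_cast hH1)]
      have e1 : (Fam DiscLe H).ncard = (Pool.Agent.TH344.DS.Dv H).card := by
        rw [FamD_eq, Set.ncard_coe_finset]
      rw [e1]
      refine (h H hH).trans (Nat.cast_le.2 ?_)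
      rw [← Set.ncard_coe_finset]
      refine Set.ncard_le_ncard (fun k hk => ?_) (Set.Finite.inter_of_left
        (hfin _ (Or.inr rfl) _) _)
      rw [mem_coe, mem_filter] at hk
      refine ⟨?_, mem_of hk.2⟩
      rw [FamD_eq, mem_coe]
      exact hk.1

end Pool.Agent.Results.MP_d37f77_nt.PositiveProportionQuartics
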