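import Mathlib
import Pool.Agent.Q8.QH.Qu
import Pool.Agent.W307.RT.Tors

/-!
# Finite descent on the 2-isogeny quartics of all curves with full rational 2-torsion, by height

All elliptic curves `E` over `ℚ` with full rational 2-torsion, ordered by the naive height. Let
`y² = x (x - A) (x - B)` be obtained from the reduced equation `y² = x³ + a x + b` of `E` by moving
one of its points of order two to `(0, 0)` (six pairs `(A, B)` for each `E`). For a squarefree
`b₁ ∣ A B` consider the curve of genus one `C : N² = b₁ M⁴ - (A + B) M² e² + (A B / b₁) e⁴`. Its étale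
double coverings are `D_d : b₁ M² - A e² = d x²`, `b₁ M² - B e² = b₁ d y²` (`N = d x y`), `d` a
squarefree integer, and every 2-covering of `C` factors through one of the `D_d`.
We prove that the number of the curves `C` with points everywhere locally is
`(log H) ^ ((3 / 2) log 2 + o(1))` for 100 % of the curves `E` of height at most `H`, while the number
of those `C` which have a `D_d` with points everywhere locally is bounded in mean square.
-/

set_option autoImplicit false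

namespace Pool.Agent.Results.MP_d37f77_nt.QuarticsByHeight

open Finset Filter

/-- the curve `y² = x³ + A x + B` over `ℚ` -/
def E (A B : ℤ) : WeierstrassCurve ℚ := ⟨0, 0, 0, (A : ℚ), (B : ℚ)⟩

open Classical in
/-- The pairs `(A, B)` of integers such that `4 A³ + 27 B² ≠ 0`, there is no prime `p` with
`p⁴ ∣ A` and `p⁶ ∣ B`, the height `max (4 |A|³) (27 B²)` is at most `H`, and `Z/2 x Z/2` embeds in
the group of the rational points of `y² = x³ + A x + B`. (The bounds `|A|, |B| ≤ H` follow from the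
bound of the height. Every elliptic curve over `ℚ` is isomorphic to `E A B` for exactly one pair with
the first two properties.) -/
noncomputable def Fam (H : ℕ) : Finset (ℤ × ℤ) :=
  ((Icc (-(H : ℤ)) H) ×ˢ (Icc (-(H : ℤ)) H)).filter (fun c : ℤ × ℤ =>
    4 * c.1 ^ 3 + 27 * c.2 ^ 2 ≠ 0 ∧ 4 * |c.1| ^ 3 ≤ H ∧ 27 * c.2 ^ 2 ≤ H ∧
    (∀ p : ℕ, p.Prime → ¬ ((p : ℤ) ^ 4 ∣ c.1 ∧ (p : ℤ) ^ 6 ∣ c.2)) ∧
    ∃ f : ZMod 2 × ZMod 2 →+ (E c.1 c.2).toAffine.Point, Function.Injective f)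

/-- `x³ + c.1 x + c.2 = (x - e) (x - e - A) (x - e - B)` for some `e`: the translation by `e` turns
the curve `E c.1 c.2` into `y² = x (x - A) (x - B)`, and its point `(e, 0)` into `(0, 0)` -/
def Roots (c : ℤ × ℤ) (A B : ℤ) : Prop :=
  ∃ e : ℤ, ∀ x : ℤ, x ^ 3 + c.1 * x + c.2 = (x - e) * (x - (e + A)) * (x - (e + B))

/-- the curve `C : N² = b₁ M⁴ - (A + B) M² e² + (A B / b₁) e⁴` has a point over `K`, with
`(M, e) ≠ (0, 0)` -/
def Solvable (K : Type) [Field K] (A B b₁ : ℤ) : Prop := ∃ N M e : K, (M ≠ 0 ∨ e ≠ 0) ∧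
  N ^ 2 = (b₁ : K) * M ^ 4 + ((-(A + B) : ℤ) : K) * M ^ 2 * e ^ 2 +
    ((A * B / b₁ : ℤ) : K) * e ^ 4

/-- the squarefree `b₁ ∣ A B` for which `C` has points everywhere locally -/
def ELS (A B : ℤ) : Set ℤ := {b₁ | Squarefree b₁ ∧ b₁ ∣ A * B ∧ Solvable ℝ A B b₁ ∧
  ∀ (p : ℕ) [Fact p.Prime], Solvable ℚ_[p] A B b₁}

/-- the double covering `D_d` of `C` has a point over `K` -/
def Covering (K : Type) [Field K] (A B b₁ d : ℤ) : Prop := ∃ M e x y : K, (M ≠ 0 ∨ e ≠ 0) ∧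
  (b₁ : K) * M ^ 2 - (A : K) * e ^ 2 = (d : K) * x ^ 2 ∧
  (b₁ : K) * M ^ 2 - (B : K) * e ^ 2 = (b₁ : K) * d * y ^ 2

/-- the `b₁` in `ELS A B` for which some covering `D_d` has points everywhere locally -/
def ELSCovered (A B : ℤ) : Set ℤ := {b₁ | b₁ ∈ ELS A B ∧ ∃ d : ℤ, Squarefree d ∧
  Covering ℝ A B b₁ d ∧ ∀ (p : ℕ) [Fact p.Prime], Covering ℚ_[p] A B b₁ d}

lemma Fam_eq (H : ℕ) : Fam H = Pool.Agent.W307.RT.Cv 2 H := by
  classical
  unfold Fam Pool.Agent.W307.RT.Cv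
  apply filter_congr
  intro c _
  have h : Pool.Agent.W307.RT.HasT 2 (Pool.Agent.W307.RT.Sh c.1 c.2) ↔
      ∃ f : ZMod 2 × ZMod 2 →+ (E c.1 c.2).toAffine.Point, Function.Injective f :=
    Pool.Agent.W307.RT.tors_iff
  rw [h]

open Classical in
/-- **Theorem.** (1) If `C` has a rational point and `b₁ ∈ ELS A B`, then `b₁ ∈ ELSCovered A B`.
(2) The number of the curves in `Fam H` tends to infinity with `H`; each of them has an equation
`y² = x (x - A) (x - B)` as in `Roots`, and for all these equations `A`, `B`, `A - B` are nonzero and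
`ELS A B` is finite.
(3) There is a constant `C` such that for all `H` and every choice `c ↦ f c` of such an equation for
each curve `c` in `Fam H`, the average over `Fam H` of the square of the number of the elements of
`ELSCovered` is at most `C`.
(4) For all `δ, ε > 0` there are `R` and `H₀` such that for `H ≥ H₀` all the curves in `Fam H` with at
most `ε #(Fam H)` exceptions satisfy for all their equations `y² = x (x - A) (x - B)`:
`#ELSCovered A B ≤ R` and
`(log H) ^ ((3 / 2) log 2 - δ) ≤ #ELS A B ≤ (log H) ^ ((3 / 2) log 2 + δ)`. -/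
theorem result :
    (∀ A B b₁ : ℤ, A ≠ B → b₁ ∈ ELS A B → Solvable ℚ A B b₁ → b₁ ∈ ELSCovered A B) ∧
    Tendsto (fun H : ℕ => (Fam H).card) atTop atTop ∧
    (∀ H : ℕ, ∀ c ∈ Fam H, (∃ A B : ℤ, Roots c A B) ∧
      ∀ A B : ℤ, Roots c A B → A ≠ 0 ∧ B ≠ 0 ∧ A ≠ B ∧ (ELS A B).Finite) ∧
    (∃ C : ℝ, ∀ (H : ℕ) (f : ℤ × ℤ → ℤ × ℤ), (∀ c ∈ Fam H, Roots c (f c).1 (f c).2) →
      ∑ c ∈ Fam H, ((ELSCovered (f c).1 (f c).2).ncard : ℝ) ^ 2 ≤ C * (Fam H).card) ∧
    ∀ δ ε : ℝ, 0 < δ → 0 < ε → ∃ R H₀ : ℕ, ∀ H : ℕ, H₀ ≤ H →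
      (((Fam H).filter (fun c : ℤ × ℤ => ¬ ∀ A B : ℤ, Roots c A B →
        (ELSCovered A B).ncard ≤ R ∧
        (Real.log H) ^ (3 / 2 * Real.log 2 - δ) ≤ ((ELS A B).ncard : ℝ) ∧
        ((ELS A B).ncard : ℝ) ≤ (Real.log H) ^ (3 / 2 * Real.log 2 + δ))).card : ℝ) ≤
      ε * (Fam H).card := by
  simp only [Fam_eq]
  refine ⟨fun A B b₁ hAB hs hr => Pool.Agent.TH841.FD.rat_mem hAB hs hr,
    Pool.Agent.W307.RT.tendsto_of_low Pool.Agent.W672.FK.lowf, ?_, ?_, ?_⟩
  · intro H c hc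
    refine ⟨Pool.Agent.Q8.QH.roots_ex hc, fun A B hr => ?_⟩
    obtain ⟨a1, a2, a3⟩ := Pool.Agent.Q8.QH.roots_ne hr (Pool.Agent.Q8.QH.mem_cv hc).1
    exact ⟨a1, a2, a3, Pool.Agent.TH841.NO.sq_finite (a := -(A + B)) (mul_ne_zero a1 a2)⟩
  · obtain ⟨C, -, hC⟩ := Pool.Agent.Q8.QH.lf_mom
    exact ⟨C, fun H f hf => hC H f hf⟩
  · intro δ ε hδ hε
    exact Pool.Agent.Q8.QH.final δ ε hδ hε

end Pool.Agent.Results.MP_d37f77_nt.QuarticsByHeight
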