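import Mathlib
import Pool.Agent.Q323.FM.Twist

/-!
# Finite descent on the everywhere locally solvable quartics in twist families: all the moments

Let `A`, `B`, `A - B` be nonzero integers and `D ≠ 0` an arbitrary polynomial with integer
coefficients. For `A' = A D(t)`, `B' = B D(t)` and a squarefree divisor `b₁` of `A' B'` consider the
curve of genus one `C : N² = b₁ M⁴ - (A' + B') M² e² + (A' B' / b₁) e⁴`. Its étale double coverings
(with the Jacobian `y² = x (x - A') (x - B')`) are `D_d : b₁ M² - A' e² = d x²`,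
`b₁ M² - B' e² = b₁ d y²` (`N = d x y`), `d` a squarefree integer, and every 2-covering of `C`
factors through one of the `D_d`. We prove that all the moments of the number of the curves `C` with
points everywhere locally which have a `D_d` with points everywhere locally are bounded; the other
curves `C` with points everywhere locally have an empty 2-Selmer set, and their number tends to
infinity for almost all `t` as soon as `A B` is not a square modulo some simple factor of `D`.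
-/

set_option autoImplicit false

namespace Pool.Agent.Results.MP_d37f77_nt.TwistsAllMoments

open Finset Polynomial

/-- the curve `C : N² = b₁ M⁴ - (A + B) M² e² + (A B / b₁) e⁴` has a point over `K`, with
`(M, e) ≠ (0, 0)` -/
def Solvable (K : Type) [Field K] (A B b₁ : ℤ) : Prop := ∃ N M e : K, (M ≠ 0 ∨ e ≠ 0) ∧
  N ^ 2 = (b₁ : K) * M ^ 4 + ((-(A + B) : ℤ) : K) * M ^ 2 * e ^ 2 +
    ((A * B / b₁ : ℤ) : K) * e ^ 4

/-- the squarefree `b₁ ∣ A B` for which `C` has points everywhere locally -/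
def ELS (A B : ℤ) : Set ℤ := {b₁ | Squarefree b₁ ∧ b₁ ∣ A * B ∧ Solvable ℝ A B b₁ ∧
  ∀ (p : ℕ) [Fact p.Prime], Solvable ℚ_[p] A B b₁}

/-- the double covering `D_d` of `C` has a point over `K` -/
def Covering (K : Type) [Field K] (A B b₁ d : ℤ) : Prop := ∃ M e x y : K, (M ≠ 0 ∨ e ≠ 0) ∧
  (b₁ : K) * M ^ 2 - (A : K) * e ^ 2 = (d : K) * x ^ 2 ∧
  (b₁ : K) * M ^ 2 - (B : K) * e ^ 2 = (b₁ : K) * d * y ^ 2

/-- the `b₁` in `ELS A B` for which some covering `D_d` has points everywhere locally -/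
def ELSCovered (A B : ℤ) : Set ℤ := {b₁ | b₁ ∈ ELS A B ∧ ∃ d : ℤ, Squarefree d ∧
  Covering ℝ A B b₁ d ∧ ∀ (p : ℕ) [Fact p.Prime], Covering ℚ_[p] A B b₁ d}

/-- `v` is a square modulo `f` in `ℚ[t]` -/
def SqMod (f v : ℤ[X]) : Prop := ∃ q : ℚ[X], f.map (Int.castRingHom ℚ) ∣
  (q ^ 2 - v.map (Int.castRingHom ℚ))

open Classical in
/-- the number of the polynomials `g_i` modulo which `A B` is not a square -/
noncomputable def nonSq (A B : ℤ) {m : ℕ} (g : Fin m → ℤ[X]) : ℕ :=
  (univ.filter (fun i => ¬ SqMod (g i) (C A * C B))).card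

open Classical in
/-- **Theorem.** (1) If `C` has a rational point and `b₁ ∈ ELS A B`, then `b₁ ∈ ELSCovered A B`.
(2) Let `A`, `B`, `A - B` be nonzero integers and `D ≠ 0` a polynomial with integer coefficients.
For all `s` and `L` there is `K` such that for all integers `M ≥ 1` and `|N| ≤ M ^ L` the sum of
`(#ELSCovered (A D(t)) (B D(t))) ^ s` over the `t` with `N < t ≤ N + M`, `D(t) ≠ 0` is at most
`K * M`;
(3) if moreover `D = c g₁ ⋯ g_m` with irreducible pairwise non-associated `g_i` of positive degree,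
and `r` is the number of the `g_i` modulo which `A B` is not a square, then for all `ε, η > 0` and
`L` there is `M₀` such that for `M ≥ M₀` and `|N| ≤ M ^ L` the inequality
`#ELS (A D(t)) (B D(t)) ≥ (log M) ^ ((r / 2) log 2 - η)` (and `D(t) ≠ 0`) holds for all the `t` with
`N < t ≤ N + M` with at most `ε M` exceptions. -/
theorem result :
    (∀ A B b₁ : ℤ, A ≠ B → b₁ ∈ ELS A B → Solvable ℚ A B b₁ → b₁ ∈ ELSCovered A B) ∧
    ∀ (A B : ℤ) (D : ℤ[X]), A ≠ 0 → B ≠ 0 → A ≠ B → D ≠ 0 →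
    (∀ s L : ℕ, ∃ K : ℝ, ∀ (N : ℤ) (M : ℕ), 1 ≤ M → |N| ≤ (M : ℤ) ^ L →
      ∑ t ∈ (Ioc N (N + (M : ℤ))).filter (fun t => D.eval t ≠ 0),
        ((ELSCovered (A * D.eval t) (B * D.eval t)).ncard : ℝ) ^ s ≤ K * M) ∧
    ∀ (m : ℕ) (c : ℤ) (g : Fin m → ℤ[X]), D = C c * ∏ i, g i →
      (∀ i, Irreducible (g i) ∧ 0 < (g i).natDegree) →
      (∀ i j, i ≠ j → ¬ Associated (g i) (g j)) →
      ∀ (ε η : ℝ) (L : ℕ), 0 < ε → 0 < η →
      ∃ M₀ : ℕ, ∀ (N : ℤ) (M : ℕ), M₀ ≤ M → |N| ≤ (M : ℤ) ^ L →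
        (((Ioc N (N + (M : ℤ))).filter (fun t => ¬ (D.eval t ≠ 0 ∧
          (Real.log M) ^ ((nonSq A B g : ℝ) / 2 * Real.log 2 - η) ≤
            ((ELS (A * D.eval t) (B * D.eval t)).ncard : ℝ)))).card : ℝ) ≤ ε * M := by
  refine ⟨fun A B b₁ hAB hs hr => Pool.Agent.TH841.FD.rat_mem hAB hs hr, ?_⟩
  intro A B D hA hB hAB hD
  exact ⟨fun s L => Pool.Agent.Q323.FM.tw_mom hA hB hAB hD s L,
    fun m c g hDg hg hgg ε η L hε hη =>
      Pool.Agent.Q323.FM.tw_els hA hB hAB hD hDg hg hgg ε η L hε hη⟩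

end Pool.Agent.Results.MP_d37f77_nt.TwistsAllMoments
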